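import Mathlib
import Pool.Agent.W90.Swan.Final

/-!
# Swan exponents of symmetric and exterior squares in residue characteristic two

For every non-Archimedean local field `F` of residue characteristic two, every finite Galois
extension `E / F` and every finite-dimensional complex representation `ρ` of `Gal(E / F)`,
`Sw(Sym² ρ) - Sw(∧² ρ) ≤ Sw(ρ)`.
-/

open scoped TensorProduct ValuativeRel
open Representation IsLocalRing

noncomputable section

namespace Pool.Agent.Results.MP_410e67_nt.SwanSquareInequality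

open Pool.Agent.W90.Swan

section defs

variable (F : Type*) [Field F] [ValuativeRel F] (E : Type*) [Field E] [Algebra F E]

/-- the valuation ring of `E`: the integral closure of `𝒪[F]` in `E` -/
def OE : Subring E := (integralClosure 𝒪[F] E).toSubring

variable [TopologicalSpace F] [IsNonarchimedeanLocalField F] [FiniteDimensional F E] [IsGalois F E]

instance isFractionRing_integer : IsFractionRing 𝒪[F] F :=
  (Valuation.integer.integers (ValuativeRel.valuation F)).isFractionRing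

instance isAdicComplete_integer : IsAdicComplete (maximalIdeal 𝒪[F]) 𝒪[F] := by
  let := IsTopologicalAddGroup.rightUniformSpace F
  have := isUniformAddGroup_of_addCommGroup (G := F)
  infer_instance

instance isLocalRing_OE : IsLocalRing (OE F E) := OO_local 𝒪[F] F E

/-- `σ x - x ∈ 𝔪_E ^ (i + 1)` for all `x ∈ 𝒪_E` -/
def IsRam (i : ℕ) (σ : E ≃ₐ[F] E) : Prop :=
  ∀ x : OE F E, ∃ y ∈ maximalIdeal (OE F E) ^ (i + 1), (y : E) = σ x - x

theorem exists_ram (i : ℕ) : ∃ S : Subgroup (E ≃ₐ[F] E), ∀ σ, σ ∈ S ↔ IsRam F E i σ :=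
  haveI : IsLocalRing (OO 𝒪[F] E) := OO_local 𝒪[F] F E
  exists_ramSubgroup 𝒪[F] F E i

theorem IsRam.one (i : ℕ) : IsRam F E i 1 := by
  obtain ⟨S, hS⟩ := exists_ram F E i
  exact (hS _).mp S.one_mem

variable {F E} in
theorem IsRam.mul {i : ℕ} {a b : E ≃ₐ[F] E} (ha : IsRam F E i a) (hb : IsRam F E i b) :
    IsRam F E i (a * b) := by
  obtain ⟨S, hS⟩ := exists_ram F E i
  exact (hS _).mp (S.mul_mem ((hS _).mpr ha) ((hS _).mpr hb))

variable {F E} in
theorem IsRam.inv {i : ℕ} {a : E ≃ₐ[F] E} (ha : IsRam F E i a) : IsRam F E i a⁻¹ := by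
  obtain ⟨S, hS⟩ := exists_ram F E i
  exact (hS _).mp (S.inv_mem ((hS _).mpr ha))

/-- the lower-numbering ramification group
`G_i = {σ | σ x - x ∈ 𝔪_E ^ (i + 1) for all x ∈ 𝒪_E}` of `Gal(E / F)` -/
def ramGroup (i : ℕ) : Subgroup (E ≃ₐ[F] E) where
  carrier := {σ | IsRam F E i σ}
  mul_mem' := IsRam.mul
  one_mem' := IsRam.one F E i
  inv_mem' := IsRam.inv

/-- the ramification groups are eventually trivial, so the sum defining the Swan exponent is
finite -/
theorem ramGroup_eventually_bot : ∃ M, ∀ i, M ≤ i → ramGroup F E i = ⊥ :=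
  haveI : IsLocalRing (OO 𝒪[F] E) := OO_local 𝒪[F] F E
  ram_eventually_bot 𝒪[F] F E (ramGroup F E) fun _ _ => Iff.rfl

/-- the Swan exponent `Sw(ρ) = ∑_{i ≥ 1} (g_i / g_0) dim (V / V^{G_i})`, with `g_i = |G_i|` -/
def Sw {V : Type*} [AddCommGroup V] [Module ℂ V] (ρ : Representation ℂ (E ≃ₐ[F] E) V) : ℚ :=
  ∑ᶠ i ∈ Set.Ici 1, ((Nat.card (ramGroup F E i) : ℚ) / Nat.card (ramGroup F E 0)) *
    Module.finrank ℂ (V ⧸ invariants (ρ.comp (ramGroup F E i).subtype))

end defs

/-- `Sw(Sym² ρ) - Sw(∧² ρ) ≤ Sw(ρ)` in residue characteristic two. -/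
theorem result (F : Type*) [Field F] [ValuativeRel F] [TopologicalSpace F]
    [IsNonarchimedeanLocalField F] [CharP 𝓀[F] 2]
    (E : Type*) [Field E] [Algebra F E] [FiniteDimensional F E] [IsGalois F E]
    (V : Type*) [AddCommGroup V] [Module ℂ V] [FiniteDimensional ℂ V]
    (ρ : Representation ℂ (E ≃ₐ[F] E) V) :
    Sw F E (symSqRep ρ) - Sw F E (altSqRep ρ) ≤ Sw F E ρ := by
  have h2 : (2 : 𝒪[F]) ∈ maximalIdeal 𝒪[F] := by
    rw [← residue_eq_zero_iff, map_ofNat]
    exact_mod_cast CharP.cast_eq_zero 𝓀[F] 2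
  have : IsLocalRing (OO 𝒪[F] E) := OO_local 𝒪[F] F E
  exact swan_field 𝒪[F] F E h2 (ramGroup F E) (fun _ _ => Iff.rfl) ρ

end Pool.Agent.Results.MP_410e67_nt.SwanSquareInequality
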